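import Pool.Agent.R935.Phylo.Num

/-!
# Common partition counts of two trees need not be log-concave

For the caterpillars `T` (leaf order `0,1,...,n-1`) and `F` (the same with the leaves `2` and
`n-1` exchanged), `n = 32770`, the sequence of common partition counts violates
log-concavity at `k = 22`.
-/

set_option autoImplicit false

namespace Pool.Agent.Results.MP_afdbb1_co.NotLogConcave

open Pool.Agent.R935.Phylo

/-- Log-concavity of the common partition counts fails for some pair of trees. -/
theorem result : ∃ (n : ℕ) (T F : PhyloTree n) (k : ℕ), 1 < k ∧ k < n ∧
    common T F k ^ 2 < common T F (k - 1) * common T F (k + 1) :=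
  ⟨32770, T0 32768 hm0, F0 32768 hm0, 22, by norm_num, by norm_num, All_not_logConcave⟩

end Pool.Agent.Results.MP_afdbb1_co.NotLogConcave
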